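import Pool.Agent.H586.GLU.Stm

/-!
# Project GLU (helper586), part DH (helper34)

The derivative of the lattice Yang-Mills energy along a one-parameter group.
-/

set_option autoImplicit false
set_option linter.unusedSectionVars false
set_option linter.unusedVariables false

open MeasureTheory Matrix Finset Filter Topology
open scoped Matrix.Norms.Frobenius

namespace Pool.Agent.H34.GLU

open Pool.Agent.H586.GLU hiding dh
open Pool.Agent.N990 hiding CB CB_nonneg dd_le cont_mt
open Pool.Agent.N109.Slab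

noncomputable section

variable {N D L : ℕ} {G : Subgroup (UU N)}

/-- the inner product as a continuous bilinear map -/
def ipL (N : ℕ) : Mt N →L[ℝ] Mt N →L[ℝ] ℝ :=
  LinearMap.mkContinuous₂ (LinearMap.mk₂ ℝ (fun A B : Mt N => ip A B) ip_add_left
    (fun c A B => ip_smul_left c A B) ip_add_right (fun c A B => ip_smul_right c A B)) 1
    (fun A B => by
      rw [one_mul]
      exact ip_le A B)

lemma ipL_apply (A B : Mt N) : ipL N A B = ip A B := rfl

/-- derivative of the square of the norm -/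
lemma der_sq {A : ℝ → Mt N} {A' : Mt N} (h : HasDerivAt A A' 0) :
    HasDerivAt (fun t => (1 / 2) * ‖A t‖ ^ 2) (ip (A 0) A') 0 := by
  have h1 : HasDerivAt (fun t => (ipL N (A t)) (A t))
      ((ipL N A') (A 0) + (ipL N (A 0)) A') 0 :=
    ((ipL N).hasFDerivAt.comp_hasDerivAt 0 h).clm_apply h
  have h2 := h1.const_mul (1 / 2 : ℝ)
  have h3 : (fun t => (1 / 2 : ℝ) * ‖A t‖ ^ 2) = fun t => (1 / 2 : ℝ) * (ipL N (A t)) (A t) := by
    funext t
    rw [ipL_apply, ip_self]
  have h4 : ip (A 0) A' = 1 / 2 * ((ipL N A') (A 0) + (ipL N (A 0)) A') := by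
    rw [ipL_apply, ipL_apply, ip_comm A' (A 0)]
    ring
  rw [h3, h4]
  exact h2

/-- derivative of a shifted link -/
lemma der_link {X : Mt N} {γ : ℝ → G} (hγ : Grp X γ) (ω : SF D L) (σ : Cf G D L) (y : Site D)
    (b : Lab D L) : HasDerivAt (fun t => mt ((vt γ ω t * σ) y b)) (ω y b • (X * mt (σ y b))) 0 := by
  have h1 : HasDerivAt (fun t : ℝ => NormedSpace.exp (t • (ω y b • X))) (ω y b • X) 0 := by
    have h2 := hasDerivAt_exp_smul_const (𝕂 := ℝ) (ω y b • X) (0 : ℝ)
    rw [zero_smul, NormedSpace.exp_zero, one_mul] at h2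
    exact h2
  have h3 := h1.mul_const (mt (σ y b))
  have h4 : (fun t => mt ((vt γ ω t * σ) y b)) =
      fun t : ℝ => NormedSpace.exp (t • (ω y b • X)) * mt (σ y b) := by
    funext t
    show mt (γ (t * ω y b) * σ y b) = _
    rw [mt_mul, hγ (t * ω y b), mul_smul]
  rw [h4, ← Matrix.smul_mul]
  exact h3

lemma vt_zero {X : Mt N} {γ : ℝ → G} (hγ : Grp X γ) (ω : SF D L) (σ : Cf G D L) :
    vt γ ω 0 * σ = σ := by
  have h0 : γ 0 = 1 := by
    apply mt_inj
    rw [hγ 0, zero_smul, NormedSpace.exp_zero]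
    rfl
  funext y b
  show γ (0 * ω y b) * σ y b = σ y b
  rw [zero_mul, h0, one_mul]

/-- derivative of the vertical derivative -/
lemma der_dv {X : Mt N} {γ : ℝ → G} (hγ : Grp X γ) (ω : SF D L) (σ : Cf G D L) (x : Site D)
    (a : Lab D L) : HasDerivAt (fun t => dv (Yf (vt γ ω t * σ)) x a)
      (dv (fun y b => ω y b • (X * mt (σ y b))) x a) 0 := by
  have h1 : ∀ b, HasDerivAt (fun t => Yf (vt γ ω t * σ) x b) (ω x b • (X * mt (σ x b))) 0 :=
    fun b => (der_link hγ ω σ x b).sub_const 1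
  unfold dv
  refine (h1 a).sub ?_
  unfold low
  by_cases h : (a.2 : ℕ) = 0
  · simp only [dif_pos h]
    exact hasDerivAt_const _ _
  · simp only [dif_neg h]
    exact h1 _

/-- derivative of the plaquette -/
lemma der_Pq {X : Mt N} {γ : ℝ → G} (hγ : Grp X γ) (ω : SF D L) (σ : Cf G D L) (x : Site D)
    (p : (Fin D × Fin D) × Fin L) : HasDerivAt (fun t => Pq (vt γ ω t * σ) x p)
      (ω x (p.1.1, p.2) • (X * mt (σ x (p.1.1, p.2)) * mt (σ (x + ev p.1.1) (p.1.2, p.2))) +
      ω (x + ev p.1.1) (p.1.2, p.2) •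
        (mt (σ x (p.1.1, p.2)) * X * mt (σ (x + ev p.1.1) (p.1.2, p.2))) -
      ω x (p.1.2, p.2) • (X * mt (σ x (p.1.2, p.2)) * mt (σ (x + ev p.1.2) (p.1.1, p.2))) -
      ω (x + ev p.1.2) (p.1.1, p.2) •
        (mt (σ x (p.1.2, p.2)) * X * mt (σ (x + ev p.1.2) (p.1.1, p.2)))) 0 := by
  have h1 := (der_link hγ ω σ x (p.1.1, p.2)).mul
    (der_link hγ ω σ (x + ev p.1.1) (p.1.2, p.2))
  have h2 := (der_link hγ ω σ x (p.1.2, p.2)).mul
    (der_link hγ ω σ (x + ev p.1.2) (p.1.1, p.2))
  have h3 := h1.sub h2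
  rw [vt_zero hγ ω σ] at h3
  refine h3.congr_deriv ?_
  simp only [Matrix.smul_mul, Matrix.mul_smul, Matrix.mul_assoc]
  abel

/-- **GLU-DH** -/
theorem dh : S_DH := by
  intro N D L G X ω x
  refine ⟨fun γ hγ σ => ?_, ?_⟩
  · have h1 : ∀ a ∈ (Finset.univ : Finset (Lab D L)), HasDerivAt
        (fun t => (1 / 2 : ℝ) * ‖dv (Yf (vt γ ω t * σ)) x a‖ ^ 2)
        (ip (dv (Yf σ) x a) (dv (fun y b => ω y b • (X * mt (σ y b))) x a)) 0 := by
      intro a _
      have h2 := der_sq (der_dv hγ ω σ x a)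
      rw [vt_zero hγ ω σ] at h2
      exact h2
    have h3 : ∀ p ∈ plabs D L, HasDerivAt (fun t => (1 / 2 : ℝ) * ‖Pq (vt γ ω t * σ) x p‖ ^ 2)
        (ip (Pq σ x p) (
      ω x (p.1.1, p.2) • (X * mt (σ x (p.1.1, p.2)) * mt (σ (x + ev p.1.1) (p.1.2, p.2))) +
      ω (x + ev p.1.1) (p.1.2, p.2) •
        (mt (σ x (p.1.1, p.2)) * X * mt (σ (x + ev p.1.1) (p.1.2, p.2))) -
      ω x (p.1.2, p.2) • (X * mt (σ x (p.1.2, p.2)) * mt (σ (x + ev p.1.2) (p.1.1, p.2))) -
      ω (x + ev p.1.2) (p.1.1, p.2) •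
        (mt (σ x (p.1.2, p.2)) * X * mt (σ (x + ev p.1.2) (p.1.1, p.2))))) 0 := by
      intro p _
      have h2 := der_sq (der_Pq hγ ω σ x p)
      rw [vt_zero hγ ω σ] at h2
      exact h2
    have h4 := (HasDerivAt.fun_sum h1).add (HasDerivAt.fun_sum h3)
    have h5 : (fun t => hx (vt γ ω t * σ) x) = fun t =>
        (∑ a, (1 / 2 : ℝ) * ‖dv (Yf (vt γ ω t * σ)) x a‖ ^ 2) +
        ∑ p ∈ plabs D L, (1 / 2 : ℝ) * ‖Pq (vt γ ω t * σ) x p‖ ^ 2 := by
      funext t
      unfold hx
      rw [Finset.mul_sum, Finset.mul_sum]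
    rw [h5]
    exact h4
  · intro _ _
    have := sctG (G := G)
    have hc : Continuous (fun σ : Cf G D L => Pool.Agent.H586.GLU.dh ω X σ x) := by
      have hm := cont_mt (G := G)
      have hml : ∀ y b, Continuous fun σ : Cf G D L => mt (σ y b) := fun y b =>
        hm.comp ((continuous_apply b).comp (continuous_apply y))
      have hip : ∀ {F H : Cf G D L → Mt N}, Continuous F → Continuous H →
          Continuous fun σ => ip (F σ) (H σ) := by
        intro F H hF hH
        exact ((ipL N).continuous.comp hF).clm_apply hH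
      have hlow : ∀ {f : Cf G D L → Lab D L → Mt N}, (∀ b, Continuous fun σ => f σ b) →
          ∀ a, Continuous fun σ => low (f σ) a := by
        intro f hf a
        unfold low
        by_cases h : (a.2 : ℕ) = 0
        · simp only [dif_pos h]
          exact continuous_const
        · simp only [dif_neg h]
          exact hf _
      unfold Pool.Agent.H586.GLU.dh
      refine (continuous_finsetSum _ fun a _ => ?_).add (continuous_finsetSum _ fun p _ => ?_)
      · refine hip ?_ ?_
        · unfold dv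
          exact ((hml x a).sub continuous_const).sub
            (hlow (fun b => (hml x b).sub continuous_const) a)
        · unfold dv
          refine Continuous.sub ?_ (hlow (fun b => ?_) a)
          · fun_prop
          · fun_prop
      · refine hip ?_ ?_
        · unfold Pq
          exact ((hml _ _).mul (hml _ _)).sub ((hml _ _).mul (hml _ _))
        · fun_prop
    exact hc.measurable

end

end Pool.Agent.H34.GLU
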